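import Mathlib
import Pool.Agent.Helper43.Ah.Good
import Pool.Agent.Helper43.Gm.Defs
import Pool.Agent.Lead.RwMain

/-!
# Project SG (MP_d3128a_ag): all plane linear systems with general fat points and `d ^ 2 ≥ C m_1 ^ 3`

Definitions. Rows of degree `b` (super rows): the monomial `(i, j)` goes to the position
`b i + j % b` of the row `j / b`; a set of monomials is treated as `⌈d / b⌉` long rows. The rows are
filled exactly, in every row two of the points started in the next row take the rest.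
-/

set_option autoImplicit false

namespace Pool.Agent.Helper18.SG

open Finset Pool.Agent.Lead.Sh Pool.Agent.Helper43.Ah Pool.Agent.Helper43.Gm

/-- position of a monomial in the super rows of degree `b` -/
def sig (b : ℕ) (d : ℕ × ℕ) : ℕ × ℕ := (b * d.1 + d.2 % b, d.2 / b)

/-- the monomials `(u + U)^q ((t + T)^b - ε (u + U))^i (t + T)^r`, `d = (i, b q + r)`, where
`T = X 0`, `U = X 1` and `ε` is the variable of the coefficients -/
noncomputable def ff (b : ℕ) (t u : ℂ) (d : ℕ × ℕ) : MvPolynomial (Fin 2) (Polynomial ℂ) :=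
  (MvPolynomial.C (Polynomial.C u) + MvPolynomial.X 1) ^ (d.2 / b) *
    ((MvPolynomial.C (Polynomial.C t) + MvPolynomial.X 0) ^ b -
      MvPolynomial.C Polynomial.X * (MvPolynomial.C (Polynomial.C u) + MvPolynomial.X 1)) ^ d.1 *
    (MvPolynomial.C (Polynomial.C t) + MvPolynomial.X 0) ^ (d.2 % b)

/-- the exponent `o` -/
noncomputable def ex (o : ℕ × ℕ) : Fin 2 →₀ ℕ := Finsupp.single 0 o.1 + Finsupp.single 1 o.2

/-- conditions given to the row `y` (of `R` rows) by a point of multiplicity `ν` started in the row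
`s`, with threshold `z`: the rows are used in the order
`s, s + 1, …, z - 1, s - 1, z, …, R - 1, s - 2, s - 3, …, 0` -/
def nv (R ν s z y : ℕ) : ℕ :=
  if s ≤ y then ν - (y - s) - (if z ≤ y then 1 else 0)
  else if y + 1 = s then ν - (z - s) else ν - (R - 1 - y)

/-- conditions given to the row `t` by the points `0, …, N - 1` -/
def Lo (R N : ℕ) (ν s z : ℕ → ℕ) (t : ℕ) : ℕ := ∑ c ∈ range N, nv R (ν c) (s c) (z c) t

/-- the data of the game: `N` points with multiplicities `ν`, rows of lengths `ℓ y`, `y < R` -/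
structure Hyp (M S R N : ℕ) (ν ℓ : ℕ → ℕ) : Prop where
  M1 : 1 ≤ M
  R1 : 2 * M + 2 ≤ R
  anti : Antitone ν
  ν1 : ∀ c, 1 ≤ ν c
  νM : ∀ c, ν c ≤ M
  h0 : ∀ y, y + 1 < R → M * ℓ y + 3 * M ^ 2 ≤ M * ℓ (y + 1) + ℓ y
  h1 : ∀ y, y + 1 < R → R ≤ y + 2 * M + 1 → M * ℓ y + (26 + S) * M ^ 2 ≤ M * ℓ (y + 1) + ℓ y
  h2 : ∀ y, y + 2 < R → R ≤ y + M + 1 → ℓ y + ℓ (y + 2) ≤ 2 * ℓ (y + 1) + S
  tot : ∑ c ∈ range N, (ν c + 1).choose 2 = ∑ y ∈ range R, ℓ y

/-- a state of the game: the points `c < a` are started in the rows `≤ y`, the others are not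
started (`s c = R - 1`, `z c = R`); the rows before `y` are full -/
structure Ok (R N : ℕ) (ν ℓ : ℕ → ℕ) (y a : ℕ) (s z : ℕ → ℕ) : Prop where
  aN : a ≤ N
  un : ∀ c, a ≤ c → s c = R - 1 ∧ z c = R
  st : ∀ c < a, s c ≤ y ∧ s c < z c ∧ z c ≤ R ∧ (s c = 0 → z c = R)
  ex : ∀ t < y, Lo R N ν s z t = ℓ t
  le : Lo R N ν s z y ≤ ℓ y

/-- the invariant: the rest `ℓ y - Lo y` of the row `y` can be taken by the next two points, and
there are at most two points with a threshold in every row -/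
structure Inv (M S R N : ℕ) (ν ℓ : ℕ → ℕ) (y a : ℕ) (s z : ℕ → ℕ) : Prop
    extends Ok R N ν ℓ y a s z where
  D2 : ℓ y + 2 ≤ Lo R N ν s z y + min (ν a) (R - 1 - y) + min (ν (a + 1)) (R - 1 - y)
  D1 : 1 ≤ y → Lo R N ν s z y + min (ν a) (R - 1 - y) ≤ ℓ y + 1
  mono : ∀ c c', c ≤ c' → c' < a → s c ≤ s c'
  bat : ∀ t, 1 ≤ t → t ≤ y → ∃ c < a, s c = t
  hz : ∀ c < a, z c ≠ R → z c ≤ s c + min (ν c) (R - s c) ∧
    (2 ≤ s c → min (ν c) (R - s c) ≤ 2 * (s c + min (ν c) (R - s c) - z c) + 2)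
  two : ∀ t, ((range a).filter (fun c => s c = t ∧ z c ≠ R)).card ≤ 2
  cnt : ∀ t, 1 ≤ t → t ≤ y → R ≤ t + 2 * M → (∀ c < a, s c = t → ν c + t + 1 < R) →
    24 + S ≤ ((range a).filter (fun c => s c = t)).card

end Pool.Agent.Helper18.SG
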