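import Mathlib
import Pool.Agent.Helper18.SG.Defs

/-!
# Project SG: intermediate statements (packets)

Every packet: create `Pool/Agent/<you>/SG/<Name>.lean` with `theorem goalX : GoalX` (plus the goals
used as hypotheses, if any, e.g. `theorem goalG8 (hG4 : GoalG4) … : GoalG8`).
All subtractions are subtractions of natural numbers.
`w` in the comments is `R - 1 - y`, `T_k = (k + 1).choose 2`, `x₊ = max(x, 0)`.
-/

set_option autoImplicit false

namespace Pool.Agent.Helper18.SG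

open Finset Pool.Agent.Lead.Sh Pool.Agent.Helper43.Ah Pool.Agent.Helper43.Gm

/-- S1. At `ε = 0` the coefficients of `ff` are those of the monomial `sig b d` at `(t, u)`.

Proof. `ff` at `ε = 0` is `(u + U)^q (t + T)^(b i) (t + T)^r`, and the coefficient of `T^(o.1) U^(o.2)`
in `(t + T)^(b i + r) (u + U)^q` is `C(b i + r, o.1) t^(b i + r - o.1) C(q, o.2) u^(q - o.2)`. Map the
polynomial by `MvPolynomial.map (Polynomial.evalRingHom 0)` (`MvPolynomial.coeff_map`), expand both powers by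
`add_pow` and compare coefficients (or use an existing lemma: see `Pool/Agent/Lead/ShAlg.lean`). -/
def GoalS1 : Prop :=
  ∀ (b : ℕ) (t u : ℂ) (d o : ℕ × ℕ), 1 ≤ b →
    (MvPolynomial.coeff (ex o) (ff b t u d)).eval 0 = E o (sig b d) t u

/-- S2. If `∑ c_d x^i y^j` vanishes to order `μ` at the point `(t ^ b - e u, t)` then the polynomial
obtained by substituting `x = (t + T)^b - e (u + U)`, `y = t + T` vanishes to order `μ` at
`T = U = 0`.

Proof. Put `X0 = t ^ b - e u`. For all `p`, `q` in a commutative `ℂ`-algebra,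
`∑_d c_d (X0 + p)^(d.1) (t + q)^(d.2) = ∑_o (∑_d c_d E o d X0 t) p^(o.1) q^(o.2)` (binomial theorem, `o`
in a big rectangle). Take `p = (t + T)^b - t^b - e U`, `q = T` in `MvPolynomial (Fin 2) ℂ`; both lie in the
ideal `(T, U)`, so by hypothesis the sum lies in the ideal `(T, U)^μ` (the terms with
`o.1 + o.2 < μ` vanish), and the coefficients of total degree `< μ` of an element of `(T, U)^μ` are
`0` (or: prove directly that the coefficients of total degree `< μ` of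
`(p polynomial without constant term)^a * (q …)^b`, `μ ≤ a + b`, are `0`,
e.g. with `MvPolynomial.homogeneousComponent`, or with orders of power series). -/
def GoalS2 : Prop :=
  ∀ (b μ : ℕ) (t u e : ℂ) (D : Finset (ℕ × ℕ)) (c : ℕ × ℕ → ℂ),
    (∀ o : ℕ × ℕ, o.1 + o.2 < μ → ∑ d ∈ D, c d * E o d (t ^ b - e * u) t = 0) →
    ∀ o : ℕ × ℕ, o.1 + o.2 < μ → MvPolynomial.coeff (ex o) (∑ d ∈ D, MvPolynomial.C (c d) *
      (((MvPolynomial.C t + MvPolynomial.X 0) ^ b -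
        MvPolynomial.C e * (MvPolynomial.C u + MvPolynomial.X 1)) ^ d.1 *
        (MvPolynomial.C t + MvPolynomial.X 0) ^ d.2) : MvPolynomial (Fin 2) ℂ) = 0

/-- S3. Change of basis. Proof. For `q = j / b`, `r = j % b`,
`x^i y^j = x^i ((y^b - x) + x)^q y^r = ∑_k C(q,k) (y^b - x)^(q - k) x^(i + k) y^r`, and the `k`-th term is
`C(q,k)` times the element of the new basis of index `(i + k, b (q - k) + r) = (i + k, j - b k)`,
which is in `D` by induction on `k`. -/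
def GoalS3 : Prop :=
  ∀ (b : ℕ) (D : Finset (ℕ × ℕ)) (c : ℕ × ℕ → ℂ), 1 ≤ b →
    (∀ d ∈ D, b ≤ d.2 → (d.1 + 1, d.2 - b) ∈ D) →
    ∃ c' : ℕ × ℕ → ℂ, ∀ (A : Type) [CommRing A] [Algebra ℂ A] (x y : A),
      ∑ d ∈ D, c d • (x ^ d.1 * y ^ d.2) =
        ∑ d ∈ D, c' d • ((y ^ b - x) ^ (d.2 / b) * x ^ d.1 * y ^ (d.2 % b))

/-- S. Super rows of degree `b`.

Proof. Let `P k = (t_k, u_k)` with `InjAt (D.image (sig b)) (rows m s) P`. `sig b` is injective, so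
`∑_d c_d E r.2 (sig b d) (P r.1) = 0` for all rows `r` implies `c = 0` on `D`. By S1 the matrix
`M r d = coeff (ex r.2) (ff b t u d)` (polynomials in `ε`) is injective at `ε = 0`, and `poly_inj` gives
`e ≠ 0` for which `M` at `ε = e` is injective. Put `P' k = (t_k ^ b - e u_k, t_k)`. Let
`∑_d c_d E r.2 d (P' r.1) = 0` for all rows `r`. By S2 and S3 (with `A = MvPolynomial (Fin 2) ℂ`,
`x = (t + T)^b - e (u + U)`, `y = t + T`, `y ^ b - x = e (u + U)`) one gets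
`∑_d c'_d e^(d.2 / b) (M r d).eval e = 0` for all rows, so `c' = 0` on `D`. By S3 with
`A = MvPolynomial (Fin 2) ℂ`, `x = X 0`, `y = X 1` (linearly independent monomials) `c = 0` on `D`. -/
def GoalS : Prop :=
  ∀ (b : ℕ) (D : Finset (ℕ × ℕ)) (m : ℕ → ℕ) (s : Finset ℕ), 1 ≤ b →
    (∀ d ∈ D, b ≤ d.2 → (d.1 + 1, d.2 - b) ∈ D) →
    Inj (D.image (sig b)) (rows m s) → Inj D (rows m s)

/-- V. Hermite interpolation with gaps at the nodes `1, 2, 3, …`.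

Proof. Splitting `γ` into real and imaginary parts one may assume that `γ` is real. Let
`g = ∑_{k ∈ K} γ_k X^k : Polynomial ℝ`. As in `hermite` (Helper43/Ah/Row.lean) the multiplicity of the root
`c + 1` of `g` is at least `n c`. If `g ≠ 0` then `g` has at least `∑ n c ≥ |K|` positive roots with
multiplicity, but by the rule of Descartes
(`Polynomial.roots_countP_pos_le_signVariations`) at most `|support| - 1 < |K|` (the number of sign
variations is smaller than the number of nonzero coefficients). -/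
def GoalV : Prop :=
  ∀ (K : Finset ℕ) (N : ℕ) (n : ℕ → ℕ) (γ : ℕ → ℂ), K.card ≤ ∑ c ∈ range N, n c →
    (∀ c < N, ∀ a < n c, ∑ k ∈ K, γ k * ((k.choose a : ℂ) * ((c : ℂ) + 1) ^ (k - a)) = 0) →
    ∀ k ∈ K, γ k = 0

/-- A. Row prices for arbitrary rows. Proof: the proof of `row_inj` (Helper43/Ah/Row.lean) with
`D` in place of `rowsD R ℓ`, the nodes `xx c = c + 1`, and V in place of `hermite`. -/
def GoalA2 : Prop :=
  ∀ (R : ℕ) (D : Finset (ℕ × ℕ)) (N : ℕ) (ν : ℕ → ℕ) (n : ℕ → ℕ → ℕ) (π ε : ℕ → ℤ),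
    (∀ d ∈ D, d.2 < R) → Pri R ν n π ε N →
    (∀ y < R, (D.filter (fun d => d.2 = y)).card ≤ ∑ c ∈ range N, n c y) →
    Inj D (rows ν (range N))

/-- P. Prices for the pattern `nv`.

Proof. Put `B = 2 R + 2`, `C = 2 (R + 1)!`, `π y = ∑_{t < y} C B^(R - t)` (so the slopes
`p_t = π (t + 1) - π t = C B^(R - t)` decrease, each is `B` times the next). For a point with start `s`,
threshold `z`, `i = z - s - 1`: `ε = (π (s + i) - π (s - 1)) / (i + 1) - 1` if `s ≥ 1` (the division is exact)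
and `ε = C B^(R + 1)` if `s = 0`. With `V y = π y - ε y` the values are ordered:
`V s > V (s + 1) > … > V (s + i) > V (s - 1) > V (s + i + 1) > … > V (R - 1) > V (s - 2) > V (s - 3) > …`
(checked numerically). Indeed `p_s < ε < p_(s-1)` [if `R > s + 1`], the slopes after `s` are smaller;
`V (s + i) - V (s - 1) = i + 1 > 0`;
`(i + 2) (V (s - 1) - V (s + i + 1)) = (i + 2) ε - (π (s + i + 1) - π (s - 1)) …`, which is positive because
`π (s + i) - π (s - 1) ≥ p_(s-1) = B C B^(R - s)` and `(i + 1) p_(s+i) ≤ (i + 1) C B^(R - s)`; and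
`V (R - 1) ≥ V s - R ε`, `V (s - 2) ≤ V (s - 1) - (p_(s-2) - ε)`, `p_(s-2) = B p_(s-1) ≥ B ε`.
The set of better rows: for `y ≥ s` it is `{s, …, y - 1}`, and `s - 1` if `z ≤ y` (and `s ≥ 1`); for
`y = s - 1` it is `{s, …, z - 1}`; for `y < s - 1` it is `{y + 1, …, R - 1}`. -/
def GoalP : Prop :=
  ∀ (R N : ℕ) (ν s z : ℕ → ℕ), (∀ c < N, s c < R ∧ s c < z c ∧ z c ≤ R) →
    ∃ π ε : ℕ → ℤ, Pri R ν (fun c y => nv R (ν c) (s c) (z c) y) π ε N

/-- G1. Every point gives all its conditions. Proof: in the order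
`s, s + 1, …, z - 1, s - 1, z, …, R - 1, s - 2, …, 0` of the rows the `k`-th row (`k = 0, 1, …`) gets `ν - k`;
`∑_{k < R} (ν - k) = T_ν` as `ν ≤ R`. (E.g. split the sum over `range R` into `y < s - 1`, `y = s - 1`,
`s ≤ y < z`, `z ≤ y < R` and reindex.) -/
def GoalG1 : Prop :=
  ∀ (R ν s z : ℕ), ν ≤ R → s < R → s < z → z ≤ R → (s = 0 → z = R) →
    ∑ y ∈ range R, nv R ν s z y = (ν + 1).choose 2

/-- G2. There are at least three points which are not started.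

Proof. By G1 and `tot`, `∑_{t < R} Lo t = ∑_{t < R} ℓ t`, and by `ex` also
`∑_{y ≤ t < R} Lo t = ∑_{y ≤ t < R} ℓ t`, so (`le`) `∑_{y < t < R} ℓ t ≤ ∑_{y < t < R} Lo t`. Suppose
`N ≤ a + 2`. For `1 ≤ k`, `y + k < R`, a started point has
`nv (y + k) ≤ nv y - k`, hence `M nv (y + k) ≤ (M - k) nv y` (as `nv y ≤ M`),
and a point which is not started gives at most `M`; so `M Lo (y + k) ≤ (M - k) ℓ y + 2 M ^ 2`. By
induction on `k` from `h0`: `(M - k) ℓ y + 3 M ^ 2 ≤ M ℓ (y + k)` for `k ≥ 1` (the step: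
`M² ℓ (y+k+1) ≥ (M - 1) M ℓ (y+k) + 3 M³ ≥ (M - 1) (M - k) ℓ y + (M - 1) 3 M² + 3 M³`, and
`(M - 1) (M - k) ≥ M (M - k - 1)`). So `M Lo t + M ^ 2 ≤ M ℓ t` for all `t > y`, a contradiction as
there is such a `t`. -/
def GoalG2 : Prop :=
  ∀ (M S R N : ℕ) (ν ℓ : ℕ → ℕ) (y a : ℕ) (s z : ℕ → ℕ), GoalG1 → Hyp M S R N ν ℓ →
    Ok R N ν ℓ y a s z → y + 1 < R → a + 3 ≤ N

/-- G4. If the points which are not started are small, the next row needs many conditions.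

Proof. `ν c + y + 1 < R` for all `c ≥ a` (antitone), so the points which are not started give nothing to the rows
`y`, `y + 1` (for them `nv R (ν c) (R - 1) R t = ν c - (R - 1 - t)` for `t < R`). A started
point has `nv (y + 1) ≤ nv y - 1` and `nv y ≤ M`, so `M nv (y + 1) + nv y ≤ M nv y`. Sum up:
`M Lo (y + 1) + Lo y ≤ M Lo y`, and use `Lo y ≤ ℓ y`, `M ≥ 1`. -/
def GoalG4 : Prop :=
  ∀ (M S R N : ℕ) (ν ℓ : ℕ → ℕ) (y a : ℕ) (s z : ℕ → ℕ), Hyp M S R N ν ℓ →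
    Ok R N ν ℓ y a s z → y + 1 < R → ν a + y + 1 < R →
    M * Lo R N ν s z (y + 1) + ℓ y ≤ M * ℓ y

/-- G5. Conservation. `w = R - 1 - y`.

Proof. Put `v_c = nv (at y)`. For a started point (`s c ≤ y`) and `1 ≤ k ≤ w`:
`nv (y + k) = v_c - k` up to a further `- 1` for the rows `≥ z c` in case `y < z c`, `z c ≠ R`, which
takes effect in `P_c = min(R, s c + ν c) - z c` rows. Hence
`∑_{k=1}^w nv (y + k) + T_w + P_c = w v_c + T_(w - v_c)` (natural subtraction, also for `v_c = 0` and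
`v_c ≥ w`; `P_c = 0` unless `y < z c` and `z c ≠ R`), and `nv (y + 1) + [0 < v_c] ≤ v_c`.
For a point which is not started `nv t = ν c - (R - 1 - t)`, so
`∑_{k=1}^w nv (y + k) = w v_c + T_(min (ν c) w)` and `nv (y + 1) = v_c + [w ≤ ν c]`. Let `f` be the number
of the points `a ≤ c < N` with `w ≤ ν c`, `U = ∑_{a ≤ c < N} T_(min (ν c) w) ≥ T_w f`. As
`∑_{t = y}^{R - 1} Lo t = ∑_{t = y}^{R - 1} ℓ t` (G1, `tot`, `ex`),
`(w + 1) Lo y + ∑_{c < a} T_(w - v_c) + U = ∑_{k=0}^w ℓ (y + k) + a T_w + P`. By `h2` (with `Δ = ℓ (y+1) - ℓ y`,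
integers) `ℓ (y + k) ≤ ℓ y + k Δ + S C(k, 2)`, so
`∑_{k=0}^w ℓ (y + k) ≤ (w + 1) ℓ y + T_w Δ + S C(w + 1, 3)`. Moreover
`T_w Lo (y + 1) ≤ T_w Lo y - T_w #{c < a, 0 < v_c} + T_w f`, and
`∑_{c < a} T_(w - v_c) = Dd + T_w #{c < a, v_c = 0}` where `Dd` is the sum of the statement. Add up:
`T_w (ℓ (y + 1) - Lo (y + 1)) ≥ (T_w - (w + 1)) (ℓ y - Lo y) + Dd - P - S C(w + 1, 3)`, and
`T_w ≥ w + 1` for `w ≥ 2`. -/
def GoalG5 : Prop :=
  ∀ (M S R N : ℕ) (ν ℓ : ℕ → ℕ) (y a : ℕ) (s z : ℕ → ℕ), GoalG1 → Hyp M S R N ν ℓ →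
    Ok R N ν ℓ y a s z → y + 2 < R → R ≤ y + M + 1 →
    (R - 1 - y + 1).choose 2 * Lo R N ν s z (y + 1) +
      ∑ c ∈ (range a).filter (fun c => 0 < nv R (ν c) (s c) (z c) y),
        (R - 1 - y - nv R (ν c) (s c) (z c) y + 1).choose 2 ≤
      (R - 1 - y + 1).choose 2 * ℓ (y + 1) +
      ∑ c ∈ (range a).filter (fun c => y < z c ∧ z c ≠ R), (min R (s c + ν c) - z c) +
      S * (R - 1 - y + 1).choose 3

/-- G6. The pending thresholds. `w = R - 1 - y`.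

Proof. Let `c < a`, `y < z c`, `z c ≠ R`, `g = min (ν c) (R - s c)` and
`u = s c + g - z c = min R (s c + ν c) - z c` (`z c ≤ s c + g` by `hz`). `s c ≠ 0` by `st`. If `s c = 1` then
`z c ≤ 1 + M ≤ y` as `y + M + 1 ≥ R ≥ 2 M + 2`, impossible; so `s c ≥ 2` and `g ≤ 2 u + 2`. Now
`u ≤ R - z c ≤ w`, and `s c = z c + u - g ≥ y + 1 + u - (2 u + 2) ≥ y - 1 - w`. So `s c` is one of the
`w + 2` rows `y - w - 1, …, y`, for each there are at most two such `c` (`two`), and `u ≤ w`. -/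
def GoalG6 : Prop :=
  ∀ (M S R N : ℕ) (ν ℓ : ℕ → ℕ) (y a : ℕ) (s z : ℕ → ℕ), Hyp M S R N ν ℓ →
    Inv M S R N ν ℓ y a s z → y + 1 < R → R ≤ y + M + 1 →
    ∑ c ∈ (range a).filter (fun c => y < z c ∧ z c ≠ R), (min R (s c + ν c) - z c) ≤
      2 * (R - 1 - y) * (R - 1 - y + 2)

/-- G7. Many points die in every row of the rest. `w = R - 1 - y`.

Proof. Call a row `t ∈ [1, y]` low if `t + ν c ≤ y + v` for all `c < a` with `s c = t`. The row
`t = y + v - M` (it is `≥ 1`, as `y ≥ M + 1`) is low; the row `y` is not low: there is `c < a` with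
`s c = y` (`bat`; `y ≥ 1`), and `ν c ≥ ν a ≥ w > v`. Let `t` be the largest low row, so `t < y` and `t + 1`
is not low: there is `c'` with `s c' = t + 1`, `t + 1 + ν c' > y + v`, that is `t + ν c' ≥ y + v`. Every
`c < a` with `s c = t` has `c ≤ c'` (`mono`), so `ν c ≥ ν c'` and `t + ν c ≥ y + v`; hence
`t + ν c = y + v` for all `c < a` with `s c = t`. Now `t + 2 M ≥ R` (as `t ≥ y + v - M ≥ y + 1 - M` and
`2 M` … : `R = y + w + 1 ≤ y + M + 1`), and `ν c + t + 1 = y + v + 1 ≤ y + w < R`, so by `cnt` there are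
at least `24 + S` points `c < a` with `s c = t`, at most two of them have `z c ≠ R` (`two`). -/
def GoalG7 : Prop :=
  ∀ (M S R N : ℕ) (ν ℓ : ℕ → ℕ) (y a : ℕ) (s z : ℕ → ℕ), Hyp M S R N ν ℓ →
    Inv M S R N ν ℓ y a s z → y + 1 < R → R ≤ y + M + 1 → R ≤ ν a + y + 1 →
    ∀ v, 1 ≤ v → v + y + 1 < R →
      22 + S ≤ ((range a).filter (fun c => z c = R ∧ s c + ν c = y + v)).card

/-- G8. The next row needs at least `3 κ - 1` conditions, `κ = min (ν a) (w - 1)`, `w = R - 1 - y ≥ 2`.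

Proof. If `ν a < w`: by G4 and `h0`, `M (ℓ (y + 1) - Lo (y + 1)) ≥ M ℓ (y+1) - M ℓ y + ℓ y ≥ 3 M ^ 2`, so
`ℓ (y + 1) - Lo (y + 1) ≥ 3 M ≥ 3 κ`. If `ν a ≥ w` then `w ≤ M`, `κ = w - 1`. By G7 the sum `Dd` of G5
satisfies `Dd ≥ ∑_{v=1}^{w-1} (22 + S) T_(w - v) = (22 + S) C(w + 1, 3)` (a point with `z c = R`,
`s c + ν c = y + v` has `nv = v` at the row `y`; the sets for different `v` are disjoint). With G5, G6:
`T_w (ℓ (y + 1) - Lo (y + 1)) ≥ 22 C(w + 1, 3) - 2 w (w + 2)`. If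
`ℓ (y + 1) - Lo (y + 1) ≤ 3 w - 5` (integers) then, multiplying by `6 / w`,
`22 (w² - 1) - 12 (w + 2) ≤ 3 (w + 1) (3 w - 5)`, that is `13 w² - 6 w - 31 ≤ 0`, false for `w ≥ 2`. -/
def GoalG8 : Prop :=
  ∀ (M S R N : ℕ) (ν ℓ : ℕ → ℕ) (y a : ℕ) (s z : ℕ → ℕ), Hyp M S R N ν ℓ →
    Inv M S R N ν ℓ y a s z → y + 2 < R →
    Lo R N ν s z (y + 1) + 3 * min (ν a) (R - 2 - y) ≤ ℓ (y + 1) + 1

/-- the new starts -/
def ns (y a n : ℕ) (s : ℕ → ℕ) (c : ℕ) : ℕ := if a ≤ c ∧ c < a + n then y + 1 else s c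

/-- the new thresholds -/
def nz (R y a u1 u2 : ℕ) (ν z : ℕ → ℕ) (c : ℕ) : ℕ :=
  if c = a then y + 1 + min (ν a) (R - 1 - y) - u1
  else if c = a + 1 then y + 1 + min (ν (a + 1)) (R - 1 - y) - u2 else z c

/-- G9. Starting `n ≥ 2` points in the row `y + 1`, the first two of which take `u1`, `u2` in the row
`y`.

Proof. Point by point. A point which is not started has `nv R (ν c) (R - 1) R t = ν c - (R - 1 - t)` for
`t < R`. Started in the row `y + 1` with `z c = R` it gives the same to the rows `t ≤ y`, and `ν c` to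
the row `y + 1`, that is `min (ν c) (R - 2 - y)` more. The points `a`, `a + 1` (thresholds
`z = y + 1 + g - u ≥ y + 2`, `g = min (ν c) (R - 1 - y)`) give the same to the rows `t < y`,
`ν c - (z - (y + 1)) = ν c - (g - u) = (ν c - (R - 1 - y)) + u` to the row `y`, and `ν c` to the row
`y + 1`. -/
def GoalG9 : Prop :=
  ∀ (R N : ℕ) (ν : ℕ → ℕ) (y a n u1 u2 : ℕ) (s z : ℕ → ℕ), y + 2 < R →
    (∀ c, a ≤ c → s c = R - 1 ∧ z c = R) → 2 ≤ n → a + n ≤ N →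
    u1 + 1 ≤ min (ν a) (R - 1 - y) → u2 + 1 ≤ min (ν (a + 1)) (R - 1 - y) →
    (∀ t < y, Lo R N ν (ns y a n s) (nz R y a u1 u2 ν z) t = Lo R N ν s z t) ∧
    Lo R N ν (ns y a n s) (nz R y a u1 u2 ν z) y = Lo R N ν s z y + u1 + u2 ∧
    Lo R N ν (ns y a n s) (nz R y a u1 u2 ν z) (y + 1) =
      Lo R N ν s z (y + 1) + ∑ i ∈ range n, min (ν (a + i)) (R - 2 - y)

/-- G10. One step of the game.

Proof. Put `w = R - 1 - y ≥ 2`, `g i = min (ν (a + i)) (w - 1) ≥ 1`, `Q = ℓ (y + 1) - Lo (y + 1) ≥ 3 g 0 - 1` (G8),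
`D = ℓ y - Lo y`, `c1 = min (ν a) w`, `c2 = min (ν (a + 1)) w`.
(1) `n` := the least number with `Q + 2 ≤ ∑_{i < n} g i + g n + g (n + 1)` (exists as `g ≥ 1`). `n ≥ 2`
since `g` is antitone and `Q ≥ 3 g 0 - 1`. By minimality
`∑_{i < n - 1} g i + g (n - 1) + g n < Q + 2`, i.e. `∑_{i < n} g i + g n ≤ Q + 1`.
(2) `u1 + u2 = D`, `u1 + 1 ≤ c1`, `u2 + 1 ≤ c2`, and `c1 ≤ 2 u1 + 2`, `c2 ≤ 2 u2 + 2` if `y ≥ 1`: exist
by `D2` (`D + 2 ≤ c1 + c2`) and `D1` (`c1 ≤ D + 1` if `y ≥ 1`), `c2 ≤ c1`: if `y = 0` take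
`u1 = min D (c1 - 1)`, `u2 = D - u1`; if `y ≥ 1` put `δ = c1 + c2 - 2 - D ≤ c2 - 1` and
`u2 = c2 - 1 - δ / 2`, `u1 = D - u2`.
(3) For `2 ≤ i ≤ n` with `a + i ≤ N` the state `(ns y a i s, nz …)` is `Ok` at `(y + 1, a + i)` by G9 (the rows
`≤ y` are full; `Lo (y + 1)` is at most `ℓ (y + 1)` by (1)), so `a + i + 3 ≤ N` by G2. Apply this to
`i = min n (N - a)` (`a + 3 ≤ N` by G2 for the old state); `i = N - a` is impossible, so `i = n` and
`a + n + 3 ≤ N`.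
(4) The new state is `Inv` at `(y + 1, a + n)`: `D2`, `D1` are (1); `mono`, `bat` clear; `hz` is (2) (here
`R - s c = R - 1 - y`; the condition with `2 ≤ s c = y + 1` is needed only for `y ≥ 1`); `two`: the new
thresholds are those of `a`, `a + 1`, with start `y + 1`, and no old point has start `y + 1`; `cnt` for
`t = y + 1`: if `R ≤ y + 1 + 2 M` and `ν a + (y + 1) + 1 < R` then by G4 and `h1`
`M Q ≥ (26 + S) M ^ 2`, so `Q ≥ (26 + S) M`, and
`Q + 2 ≤ (n + 2) M` gives `n ≥ 24 + S`. -/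
def GoalG10 : Prop :=
  ∀ (M S R N : ℕ) (ν ℓ : ℕ → ℕ) (y a : ℕ) (s z : ℕ → ℕ), Hyp M S R N ν ℓ →
    Inv M S R N ν ℓ y a s z → y + 2 < R →
    Lo R N ν s z (y + 1) + 3 * min (ν a) (R - 2 - y) ≤ ℓ (y + 1) + 1 →
    ∃ (a' : ℕ) (s' z' : ℕ → ℕ), Inv M S R N ν ℓ (y + 1) a' s' z'

/-- G11. The start of the game.

Proof. With all `s c = R - 1`, `z c = R` one has `Lo 0 = 0` (`ν c ≤ M < R - 1`). Let `n` be the least
number with `ℓ 0 + 2 ≤ ∑_{i < n} ν i + ν n + ν (n + 1)`. So `∑_{i < n} ν i ≤ ℓ 0` (minimality,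
`ν ≥ 1`). `s c = 0` for `c < n`, `s c = R - 1` for `c ≥ n`, `z c = R`. Then for `i ≤ n`, `i ≤ N`, the state with
`i` instead of `n` has `Lo 0 = ∑_{c < i} ν c ≤ ℓ 0`, is `Ok` at `(0, i)`, and `i + 3 ≤ N` by G2; apply to
`i = min n N`; so `n + 3 ≤ N`. Here `min (ν c) (R - 1) = ν c`. The fields `D1`, `bat`, `hz`, `two`, `cnt` are
trivial for `y = 0`. -/
def GoalG11 : Prop :=
  ∀ (M S R N : ℕ) (ν ℓ : ℕ → ℕ), Hyp M S R N ν ℓ →
    ∃ (a : ℕ) (s z : ℕ → ℕ), Inv M S R N ν ℓ 0 a s z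

/-- G. Exact filling of rows.

Proof. Start with G11, apply G10 (with G8) for `y = 0, …, R - 3`; one gets `Inv` at `y = R - 2`. There
`R - 1 - y = 1`, so `D2` gives `Lo (R - 2) = ℓ (R - 2)`; the rows before are full; the row `R - 1` is
full since the totals agree (`tot`, G1). -/
def GoalG : Prop :=
  ∀ (M S R N : ℕ) (ν ℓ : ℕ → ℕ), Hyp M S R N ν ℓ →
    ∃ s z : ℕ → ℕ, (∀ c < N, s c < R ∧ s c < z c ∧ z c ≤ R) ∧ ∀ y < R, Lo R N ν s z y = ℓ y

/-- F0. Sorting the points. Proof. Sort the list of the elements of `A` by `mm` (decreasing), or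
induction on `A.card` removing a point of smallest multiplicity (it gets the last place). `e` is only
relevant on `range A.card`; put `ν c = 1` for `c ≥ A.card`. See `enum` in Helper43/Ah/Good.lean. -/
def GoalF0 : Prop :=
  ∀ (M : ℕ) (A : Finset ℕ) (mm : ℕ → ℕ), 1 ≤ M → (∀ k ∈ A, 1 ≤ mm k ∧ mm k ≤ M) →
    ∃ e ν : ℕ → ℕ, Antitone ν ∧ (∀ c, 1 ≤ ν c ∧ ν c ≤ M) ∧ (∀ c < A.card, e c ∈ A ∧ ν c = mm (e c)) ∧
      (∀ c < A.card, ∀ c' < A.card, e c = e c' → c = c') ∧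
      ∑ c ∈ range A.card, (ν c + 1).choose 2 = ∑ k ∈ A, (mm k + 1).choose 2

/-- number of monomials in the `y`-th super row of the triangle, from the top (`R = d / b + 1` rows) -/
def rl (b d y : ℕ) : ℕ := ∑ j ∈ range b, (d + 1 - (b * (d / b - y) + j))

/-- F1. The super rows of the triangle. Proof: `triD 0 d` is the set of the `(i, j)` with
`i + j ≤ d` (`mem_triD`); the row `k` of the image consists of the `(b i + r, k)` with
`r < b`, `i + (b k + r) ≤ d`. For the sums: `d = b (d / b) + ρ`, `ρ < b`; for `y ≥ 1` all the terms are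
positive, `rl (y + 1) = rl y + b ^ 2`; `rl 0 = (ρ + 1) (ρ + 2) / 2`,
`rl 1 = b (ρ + 2) + b (b - 1) / 2`, the difference is at least
`b ^ 2 / 2 + 3 b / 2 - 1` (concave in `ρ ∈ [0, b - 1]`). -/
def GoalF1 : Prop :=
  ∀ (b d : ℕ), 1 ≤ b →
    (∀ x ∈ triD 0 d, b ≤ x.2 → (x.1 + 1, x.2 - b) ∈ triD 0 d) ∧
    (∀ x ∈ (triD 0 d).image (sig b), x.2 < d / b + 1) ∧
    (∀ k < d / b + 1, (((triD 0 d).image (sig b)).filter (fun x => x.2 = k)).card =
      rl b d (d / b - k)) ∧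
    (∑ y ∈ range (d / b + 1), rl b d y = (d + 2).choose 2) ∧
    (b ≤ d → b ^ 2 + 3 * b ≤ 2 * (rl b d 1 - rl b d 0) + 2) ∧
    (∀ y, 1 ≤ y → y + 1 < d / b + 1 → rl b d (y + 1) = rl b d y + b ^ 2)

/-- F. The triangle is good for multiplicities `≤ M` if `27 M ≤ b ^ 2`, `b (2 M + 1) ≤ d`.

Proof. `R = d / b + 1 ≥ 2 M + 2`, `ℓ y = rl b d y` (row `y` of the game is the super row `R - 1 - y`).
Let points `s0`, `mm ≤ M` be given; drop those with `mm k = 0` (as in `profile_gen`, Good.lean).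
(Inj) If `C(d + 2, 2) ≤ ∑ T_(mm k)`, take `s' ⊆ s` with
`C(d + 2, 2) ≤ Σ' < C(d + 2, 2) + T_M` (`subtotal`), `k = Σ' - C(d + 2, 2)`, and lengthen the rows: `ℓ' y =
ℓ y + k / R + (1 if R ≤ y + k % R)`. `Hyp M 1 R N ν ℓ'` holds (`ν` from F0 for `s'`): the increments
are `≥ b ^ 2 / 2 + 3 b / 2 - 1 ≥ 3 M` (first) and `≥ b ^ 2 ≥ 27 M` (others), the second differences are `≤ 1`
after the first row (`R ≥ 2 M + 2`). G gives `s`, `z`; P the prices; reverse the rows (`pri_rev`,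
Helper49/Gm/F2.lean); `A2` with `D = (triD 0 d).image (sig b)`, then GoalS, `inj_relabel` and
`Inj.mono`.
(Ind) If `∑ T_(mm k) ≤ C(d + 2, 2)`, add simple points (new indices) to make the total equal to
`C(d + 2, 2)`; use `Hyp M 0 R N ν ℓ`; the matrix is square, so `InjAt.ind` gives independence, then `Ind.mono`
(as at the end of `profile_gen`). -/
def GoalF : Prop :=
  ∀ (M b d : ℕ), 1 ≤ M → 27 * M ≤ b ^ 2 → b * (2 * M + 1) ≤ d → Good M (triD 0 d)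

/-- Z. All systems with `200 m_0 ^ 3 ≤ d ^ 2` or `300 m_0 ^ 3 ≤ ∑ m_i (m_i + 1)`.

Proof. `M = m 0`. If `M ≤ 1` all the points are simple (`goodFor_simple`, Helper18/Tw/Pen.lean, or any
other way). If `M ≥ 2` and `200 M ^ 3 ≤ d ^ 2` put `b = Nat.sqrt (27 M) + 1`, so `27 M ≤ b ^ 2`, and
`b (2 M + 1) ≤ d`: with `r = Nat.sqrt (27 M)`, `r ^ 2 ≤ 27 M`, `2 r ≤ r ^ 2 / 8 + 8`,
`(r + 1) ^ 2 ≤ 27 M + 27 M / 8 + 9`, and `(31 M + 9) (2 M + 1) ^ 2 ≤ 200 M ^ 3` for `M ≥ 3`; for `M = 2`: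
`b = 8`, `40 ≤ d`. Then F (as in `P2_case`, Results/MP_d3128a_ag/CubicDegree.lean of an earlier
version: `rcases le_total`, `Good` gives `Ind` or `Inj`) and
`Pool.Agent.Lead.Rw.concl s m d`. If `d ^ 2 < 200 M ^ 3` and `300 M ^ 3 ≤ ∑ m_i (m_i + 1)`, let `d0` be the least number with
`200 M ^ 3 ≤ d0 ^ 2`: `d ≤ d0`, `(d0 + 1) (d0 + 2) ≤ 300 M ^ 3` (`(d0 - 1) ^ 2 < 200 M ^ 3`), so
`C(d0 + 2, 2) ≤ ∑ C(m_i + 1, 2)`, F gives `Inj (triD 0 d0)`, and `Inj.mono` gives `Inj (triD 0 d)`. -/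
def GoalZ : Prop :=
  ∀ (s : ℕ) (m : ℕ → ℕ) (d : ℕ), Antitone m → (∀ i, s ≤ i → m i = 0) →
    (200 * m 0 ^ 3 ≤ d ^ 2 ∨ 300 * m 0 ^ 3 ≤ ∑ i ∈ range s, m i * (m i + 1)) →
    (∑ i ∈ range s, Nat.choose (m i + 1) 2 ≤ Nat.choose (d + 2) 2 ∧
        Ind (triD 0 d) (rows m (range s))) ∨
      (Nat.choose (d + 2) 2 ≤ ∑ i ∈ range s, Nat.choose (m i + 1) 2 ∧
        Inj (triD 0 d) (rows m (range s)))

end Pool.Agent.Helper18.SG
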