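import Mathlib
import Pool.Agent.Helper18.Np.Med
import Pool.Agent.Helper18.CuspMain
import Pool.Agent.Helper18.SG.Defs

/-!
# Project SG, second part: all reduced systems whose first nine points leave room

Statements of the packets. `L = (d; m_0 ≥ … )`, `M = m 9`. The nine largest points are put on a cubic
(or base points of a Halphen pencil of index `k`); the stages of the filtration by the cubic have the
relative dimensions `rr d m b` (`b = 0, 1, …`), and the region of the pencil of index `k` has the rows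
`∑_{i < k} rr (k b + i)`. These rows are filled exactly (`GoalG`), with `k` such that there are between
`2 M + 2` and `4 M + 2` rows. If `d - m 0 ≤ 4 M + 1` the long rows of `long_finish` are used instead.

Every packet: create `Pool/Agent/<you>/SG/<Name>.lean` with `theorem goalX : GoalX` (goals used are
hypotheses).
-/

set_option autoImplicit false

namespace Pool.Agent.Helper18.SG

open Finset Pool.Agent.Lead.Sh Pool.Agent.Helper43.Ah Pool.Agent.Helper43.Gm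
open Helper18.Cusp (Red rr YB kap GoodFor Concl)
open Helper18.Np (fm)

/-- as `Hyp`, with `2 M + 1 ≤ R` -/
structure HypW (M S R N : ℕ) (ν ℓ : ℕ → ℕ) : Prop where
  M1 : 1 ≤ M
  R1 : 2 * M + 1 ≤ R
  anti : Antitone ν
  ν1 : ∀ c, 1 ≤ ν c
  νM : ∀ c, ν c ≤ M
  h0 : ∀ y, y + 1 < R → M * ℓ y + 3 * M ^ 2 ≤ M * ℓ (y + 1) + ℓ y
  h1 : ∀ y, y + 1 < R → R ≤ y + 2 * M + 1 → M * ℓ y + (26 + S) * M ^ 2 ≤ M * ℓ (y + 1) + ℓ y
  h2 : ∀ y, y + 2 < R → R ≤ y + M + 1 → ℓ y + ℓ (y + 2) ≤ 2 * ℓ (y + 1) + S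
  tot : ∑ c ∈ range N, (ν c + 1).choose 2 = ∑ y ∈ range R, ℓ y

/-- GW. As `GoalG`, with `2 M + 1 ≤ R` (done by helper18 from the packets G1 … G11). -/
def GoalGW : Prop :=
  ∀ (M S R N : ℕ) (ν ℓ : ℕ → ℕ), HypW M S R N ν ℓ →
    ∃ s z : ℕ → ℕ, (∀ c < N, s c < R ∧ s c < z c ∧ z c ≤ R) ∧ ∀ y < R, Lo R N ν s z y = ℓ y

/-- QK. From row lengths to injectivity. The points of `K` (arbitrary multiplicities) take
`mm k - y` in the row `y`, the points of `s` fill the rest; the game is played from the last row to the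
first one.

Proof. Drop the `k ∈ s` with `mm k = 0`. Put `T = ∑_{y < R} ℓ y`. By `subtotal` (Helper43/Ah/Good.lean)
there is `s' ⊆ s` with `T ≤ Σ' < T + C(M + 1, 2)`, `Σ' = ∑_{k ∈ s'} C(mm k + 1, 2)`. Put `δ = Σ' - T`,
`ℓ' y = ℓ y + δ / R + (if R ≤ y + δ % R then 1 else 0)`, so `∑_{y < R} ℓ' y = Σ'`. F0 for `s'` gives `e`, `ν`;
`HypW M (S + 1) R N ν ℓ'` with `N = s'.card`: the increments of `ℓ'` are those of `ℓ`, or one more, and at
most one second difference increases, by `1` (`26 + (S + 1) = 27 + S`). `GoalGW` gives `s`, `z`; `GoalP` gives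
`π`, `ε` for `n c y = nv R (ν c) (s c) (z c) y`; reverse the rows with `pri_rev` (Helper49/Gm/F2.lean).
Enumerate `K` (`enum`): the point of index `N + j` belongs to `k = e' j`, has multiplicity `mm k`, gives
`mm k - y` to the row `y`, and its slope is an integer `E` larger than all differences of prices, so the
rows are ordered `0, 1, 2, …` for it (set of better rows `range y`). So `Pri` holds for the
`N + K.card` points, the row `y` of `D` has at most `ℓ' (R - 1 - y) + fm mm K y` elements, `GoalA2`,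
`inj_relabel` (here `Disjoint K s` is used), `Inj.mono`. (Compare Y3: `Pool/Agent/Helper24/Gx/Y3.lean`.) -/
def GoalQK : Prop :=
  ∀ (M S R : ℕ) (ℓ : ℕ → ℕ) (D : Finset (ℕ × ℕ)) (K s : Finset ℕ) (mm : ℕ → ℕ),
    1 ≤ M → 2 * M + 1 ≤ R →
    (∀ y, y + 1 < R → M * ℓ y + 3 * M ^ 2 ≤ M * ℓ (y + 1) + ℓ y) →
    (∀ y, y + 1 < R → R ≤ y + 2 * M + 1 → M * ℓ y + (27 + S) * M ^ 2 ≤ M * ℓ (y + 1) + ℓ y) →
    (∀ y, y + 2 < R → R ≤ y + M + 1 → ℓ y + ℓ (y + 2) ≤ 2 * ℓ (y + 1) + S) →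
    (∀ d ∈ D, d.2 < R) →
    (∀ y < R, (D.filter (fun d => d.2 = y)).card ≤ ℓ (R - 1 - y) + fm mm K y) →
    Disjoint K s → (∀ k ∈ s, mm k ≤ M) →
    ∑ y ∈ range R, ℓ y ≤ ∑ k ∈ s, (mm k + 1).choose 2 →
    Inj D (rows mm (K ∪ s))

/-- GI. From injectivity to maximal rank, by adding simple points.

Proof. The first half of `GoodFor` is the hypothesis for `s' = s`. Second half: if
`∑_{K ∪ s} C(mm k + 1, 2) ≤ D.card`, add `D.card - ∑` new indices (larger than all the elements of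
`K ∪ s`), with multiplicity `1`: the hypothesis gives `Inj D (rows mm' (K ∪ s'))`, and the number of conditions
is `D.card` (`card_rows`), so `InjAt.ind` gives `Ind`; then `Ind.mono` and `rows_congr`. (As in the last part of
`profile_gen`, Helper43/Ah/Good.lean.) -/
def GoalGI : Prop :=
  ∀ (M : ℕ) (D : Finset (ℕ × ℕ)) (K s : Finset ℕ) (mm : ℕ → ℕ), 1 ≤ M → Disjoint K s →
    (∀ k ∈ s, mm k ≤ M) →
    (∀ (s' : Finset ℕ) (mm' : ℕ → ℕ), Disjoint K s' → (∀ k ∈ K, mm' k = mm k) →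
      (∀ k ∈ s', mm' k ≤ M) → D.card ≤ ∑ k ∈ K ∪ s', (mm' k + 1).choose 2 →
      Inj D (rows mm' (K ∪ s'))) →
    GoodFor D mm (K ∪ s)

/-- T1a. The dimensions of the stages beyond `a 2` (at most two points are left).

Proof. For `a 2 ≤ b` the conditions of `YB n a b` at the points `2, …, 8` are void, and
`YB n a b = TP (n - 3 b) (qq 0) (qq 1) (a 0 - b) (a 1 - b)` (see `YB_base` in CuspDim.lean for how this is
used); `qq 0 0 ≠ qq 1 0` (`qq_ne`); then `TP_eq_one`, `TP_eq_two` of `Pool/Agent/Helper18/Tw/TwoPt.lean`. -/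
def GoalT1a : Prop :=
  ∀ (n : ℕ) (a : ℕ → ℕ) (b e : ℕ), Red n a → a 2 ≤ b → e + 3 * b = n →
    ((a 0 - b) + (a 1 - b) ≤ e + 1 →
      2 * Module.finrank ℂ (YB n a b) + (a 0 - b) * (a 0 - b + 1) + (a 1 - b) * (a 1 - b + 1) =
        (e + 1) * (e + 2)) ∧
    (e + 1 ≤ (a 0 - b) + (a 1 - b) →
      Module.finrank ℂ (YB n a b) = (e + 1 - (a 0 - b)) * (e + 1 - (a 1 - b)))

/-- T1. The shape of the stages (checked numerically on 200000 systems).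

Proof. `rr n a b = finrank (YB n a b) - finrank (YB n a (b + 1))`. For `b < a 2`: `rr_lev h (lev_red …)` gives
`rr b = A b := 3 (n - 3 b) - ∑_{i<9} (a i - b)₊`. For `b ≥ a 2` use T1a at `b` and `b + 1` (`YB_eq_bot` if
`n < 3 (b + 1)`). Put `e = n - 3 b`, `p = a 0 - b`, `q = a 1 - b ≤ p` (natural subtraction).
(I) `p + q ≤ e`, `1 ≤ e`: `rr b = 3 e - p - q` (the two formulas of T1a agree for `p + q = e + 1` and for
`p + q = e`, so the first one may be used at `b + 1` as long as `p + q ≤ e`, up to the values `e - 3 < 0`).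
(II) `q ≥ 1`, `p + q ≥ e + 1`, `X = e + 1 - p`, `Y = e + 1 - q`: `rr b = X Y - (X - 2) (Y - 2)` (natural
subtraction in `X - 2`), i.e. `2 X + 2 Y - 4` if `X ≥ 2`, `Y` if `X = 1`, `0` if `X = 0`.
(III) `e = 0`, `p = q = 0`: `rr b = 1`. (IV) `p ≥ e + 1`: `rr b = 0`.
(1) positivity is `rr_pos` (CuspShape.lean) in one direction; if `(a 0 - b) + 3 b > n` then `b ≥ a 2`
(reducedness) and `rr b = 0` by (IV) or `3 b > n`.
(2), (3): all three values are positive by `rr_antitone`. In the range of the formula `A`: the second difference of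
`(a i - b)₊` is `≥ 0`. In the range (I), (II) the decrements are `7`, `8` or `9` (`7`: two points left; `8`: one
point, or two points in case (II); `9`: no point), nondecreasing, and the last positive value is
at most one more than what concavity allows (`X = Y = 1` or case (III), where the value is `1` instead of
`0`); for the last value in the other cases (`X = 1 < Y`: value `Y ≤ 2 X + 2 Y - 4 + 1 - …`,
`X = 2`, or `e ∈ {1, 2}` with no point) the inequality holds. -/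
def GoalT1 : Prop :=
  ∀ (n : ℕ) (a : ℕ → ℕ), Red n a →
    (∀ b, 0 < rr n a b ↔ (a 0 - b) + 3 * b ≤ n) ∧
    (∀ b, 0 < rr n a (b + 3) → rr n a b + rr n a (b + 2) ≤ 2 * rr n a (b + 1)) ∧
    (∀ b, 0 < rr n a (b + 2) → rr n a b + rr n a (b + 2) ≤ 2 * rr n a (b + 1) + 1)

/-- length of the block of index `b` -/
def blk (r : ℕ → ℕ) (k b : ℕ) : ℕ := ∑ i ∈ range k, r (k * b + i)

/-- T2. Blocks of a concave sequence (checked numerically). `R = τ / k + 1`, `ℓ y = blk r k (R - 1 - y)`.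

Proof. Monotonicity: `r` is antitone. For `y ≥ 1` all the indices `k (R - 1 - y) + i` and those of the next two rows
`y + 1`, `y + 2` are `≤ τ - 1` (the index `τ` is in the block `R - 1`), and
`r b + r (b + 2) ≤ 2 r (b + 1)` for `b + 3 ≤ τ` gives `r b + r (b + 2 k) ≤ 2 r (b + k)` for `b + 2 k ≤ τ - 1`
(the decrements are nondecreasing); sum up. For the third statement: let `t = τ % k`
(so the block `R - 1` has the indices `τ - t, …, τ`), `r_j = r (τ - j)`; replace `r_0` by `r_0 - 1`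
(this changes `ℓ 0` by `1`); then the sequence `r_0, r_1, …` has nonincreasing increments up to the index where the
block `R - 3` ends, all `≥ 0`. With `u = r_(t + k) - r_t ≥ 0`:
`ℓ 2 - ℓ 1 = ∑_{j=t+1}^{t+k} (r_(j+k) - r_j) ≤ k u`, and
`ℓ 1 - ℓ 0 = ∑_{j=0}^{t} (r_(j+k) - r_j) + ∑_{j=t+1}^{k-1} r_j ≥ (t + 1) u + ∑_{j=t+1}^{k-1} (j / k) u`, because
`r_j - r_0 ≥ (j / k) (r_k - r_0)` and `r_k - r_0 ≥ u`. With `T = t + 1 ∈ [1, k]` the factor is
`T + (k - 1) / 2 - T (T - 1) / (2 k) ≥ (k + 1) / 2`, so `2 (ℓ 1 - ℓ 0) ≥ ℓ 2 - ℓ 1` for the modified sequence, i.e.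
`ℓ 2 + 2 ℓ 0 ≤ 3 ℓ 1 + 2` (cf. `3 ≤ R`). The last statement: split `range (k R)` into blocks; `r b = 0` for
`b > τ`. -/
def GoalT2 : Prop :=
  ∀ (r : ℕ → ℕ) (τ k : ℕ), 1 ≤ k → (∀ b, 0 < r b ↔ b ≤ τ) → Antitone r →
    (∀ b, b + 3 ≤ τ → r b + r (b + 2) ≤ 2 * r (b + 1)) →
    (∀ b, b + 2 ≤ τ → r b + r (b + 2) ≤ 2 * r (b + 1) + 1) →
    (∀ y, y + 1 < τ / k + 1 → blk r k (τ / k - y) ≤ blk r k (τ / k - (y + 1))) ∧
    (∀ y, 1 ≤ y → y + 2 < τ / k + 1 →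
      blk r k (τ / k - y) + blk r k (τ / k - (y + 2)) ≤ 2 * blk r k (τ / k - (y + 1))) ∧
    (2 ≤ τ / k → blk r k (τ / k - 2) + 2 * blk r k (τ / k) ≤ 3 * blk r k (τ / k - 1) + 2) ∧
    ∑ y ∈ range (τ / k + 1), blk r k (τ / k - y) = ∑ b ∈ range (τ + 1), r b

/-- T3. The profile inequalities (checked numerically).

Proof. Put `E = ℓ (R - 1)`, the largest row, so `216 M³ + 108 M² = 54 M² (4 M + 2) ≤ R E`, `E ≥ 54 M²`. Let
`Δ_y = ℓ (y + 1) - ℓ y ≥ 0`; for `1 ≤ y` the `Δ_y` are nonincreasing, so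
`E - ℓ y ≤ (R - 1 - y) Δ_y` for `1 ≤ y`. Hence (`y ≥ 1`, `R ≤ 4 M + 2 ≤ …`):
`(R - 1) (M Δ_y + ℓ y) ≥ M ((R - 1 - y) Δ_y + ℓ y) ≥ M E`, and `M E ≥ 3 M² (R - 1)` as `E ≥ 54 M² ≥ 3 M (4 M + 1)`; this
is the first conclusion. If `R ≤ y + 2 M + 1` (then `y ≥ 1`):
`2 (M Δ_y + ℓ y) ≥ (R - 1 - y) Δ_y + ℓ y ≥ E ≥ 54 M²`. For `y = 0`: `a = ℓ 1 - ℓ 0`, `Δ_1 ≤ 2 a + 2`,
`E ≤ ℓ 1 + (R - 2) Δ_1 ≤ ℓ 0 + a + (R - 2) (2 a + 2)`, so `ℓ 0 + (2 R - 3) a ≥ E - 2 (R - 2)` and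
`(2 R - 3) (M a + ℓ 0) ≥ M (E - 2 (R - 2)) ≥ 3 M² (2 R - 3)` as `E ≥ 54 M²`, `R ≤ 4 M + 2`, `M ≥ 2`. The third
conclusion is the hypothesis (`y ≥ R - M - 1 ≥ 1`). -/
def GoalT3 : Prop :=
  ∀ (M R : ℕ) (ℓ : ℕ → ℕ), 2 ≤ M → 2 * M + 2 ≤ R → R ≤ 4 * M + 2 →
    (∀ y, y + 1 < R → ℓ y ≤ ℓ (y + 1)) →
    (∀ y, 1 ≤ y → y + 2 < R → ℓ y + ℓ (y + 2) ≤ 2 * ℓ (y + 1)) →
    ℓ 2 + 2 * ℓ 0 ≤ 3 * ℓ 1 + 2 →
    216 * M ^ 3 + 108 * M ^ 2 ≤ ∑ y ∈ range R, ℓ y →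
    (∀ y, y + 1 < R → M * ℓ y + 3 * M ^ 2 ≤ M * ℓ (y + 1) + ℓ y) ∧
    (∀ y, y + 1 < R → R ≤ y + 2 * M + 1 → M * ℓ y + 27 * M ^ 2 ≤ M * ℓ (y + 1) + ℓ y) ∧
    (∀ y, y + 2 < R → R ≤ y + M + 1 → ℓ y + ℓ (y + 2) ≤ 2 * ℓ (y + 1))

/-- T4. Systems without a dominating point.

Proof. `a = m` (pencil) or `a = tr m 9` (cuspidal cubic; `tr m 9 i = m i` for `i < 9`), `Red d a` (as in
`main_cubic`, `main_pen` in `Pool/Agent/Helper18/Tw`). `r b = rr d a b`; by T1 `0 < r b ↔ (m 0 - b) + 3 b ≤ d`, so there is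
`τ` with `0 < r b ↔ b ≤ τ` (the left side is monotone), and `τ ≥ 2 M + 1` by hypothesis, `M = m 9`. Put
`k = τ / (2 M + 1) ≥ 1`, `R = τ / k + 1`: `2 M + 2 ≤ R ≤ 4 M + 2`. `ℓ y = blk r k (R - 1 - y)` for `y < R`. By T2, T3
(`∑ ℓ = ∑_b rr b = C(d + 2, 2) - ∑_{i<9} C(m i + 1, 2)`: `card_DS'`/`chi_DS`, `chi_DR` in Tw/Cubic.lean, Tw/Pen.lean)
the profile conditions of QK hold with `S = 0`. If `k ≥ 2`: `hex k` (Helper43/Nod/Final.lean) gives a pencil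
(`hPD.pencil`, as in `main_pen`), `slab_finish` reduces to `GoodFor (DR (Uk k z d m) (d + 1)) m (Ico 9 s)`, the row `b` of
the region has `rk (Uk …) b = ∑_{i<k} rr d m (k b + i)` elements (`rk_eq`, `mem_DR'`). If `k = 1`: `cubic_finish` with `j = 9`,
`mem_DS`, rows `rr d (tr m 9) b`. Then GI with `K = ∅` and QK with `K = ∅` (rows `b < R`, the others are empty). -/
def GoalT4 : Prop :=
  ∀ (s : ℕ) (m : ℕ → ℕ) (d : ℕ), Antitone m → (∀ i, s ≤ i → m i = 0) → m 0 + m 1 + m 2 ≤ d →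
    ∑ i ∈ range 9, m i < 3 * d → 2 ≤ m 9 → (m 0 - (2 * m 9 + 1)) + 3 * (2 * m 9 + 1) ≤ d →
    216 * m 9 ^ 3 + 108 * m 9 ^ 2 + ∑ i ∈ range 9, (m i + 1).choose 2 ≤ (d + 2).choose 2 →
    Concl s m d

/-- T5. Systems with a dominating point (checked numerically).

Proof. `M = m 9`, `δ = d - m 0`, `2 M ≤ m 1 + m 2 ≤ δ ≤ 4 M + 1`, `R = δ + 1`, `K = Ico 1 9`. By `long_finish`
(Helper18/Np/Cases.lean) it suffices to show
`GoodFor (rowsD R (fun y => d + 1 - y)) m (K ∪ Ico 9 s)`. Put `f y = fm m K y` (`≤ 4 δ` by `fm_long`),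
`ℓ y = d + 1 - (R - 1 - y) - f (R - 1 - y)`. All the `m k`, `k ∈ K`, are `≤ δ`, so
`∑_{y < R} f y = ∑_K C(m k + 1, 2)` (`sum_fm`), and `∑_{y<R} ℓ y = C(d + 2, 2) - ∑_{i<9} C(m i + 1, 2)` (as
`∑_{y<R} (d + 1 - y) = C(d + 2, 2) - C(m 0 + 1, 2)`; true subtractions: first as integers). Row by row
`ℓ (y + 1) - ℓ y = 1 - #{k ∈ K : R - 1 - y ≤ m k} ∈ [-7, 1]`, nonincreasing in `y` (second differences `≤ 0`). Since
`∑ ≥ 54 M² (4 M + 2)`, some integer row is `≥ 54 M²`, so all are `≥ 54 M² - 7 (4 M + 1) ≥ 27 M² + 7 M` (`M ≥ 2`;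
in particular the subtractions are true ones), which gives
`M ℓ y + 27 M² ≤ M ℓ (y + 1) + ℓ y`. Then GI and QK (`S = 0`; `rowsD` has `d + 1 - y = ℓ (R - 1 - y) + f y` elements in
the row `y`; `∑ ℓ ≤ ∑_{s'}` follows from `card ≤ ∑_{K ∪ s'}`). -/
def GoalT5 : Prop :=
  ∀ (s : ℕ) (m : ℕ → ℕ) (d : ℕ), Antitone m → (∀ i, s ≤ i → m i = 0) → m 0 + m 1 + m 2 ≤ d →
    2 ≤ m 9 → d ≤ m 0 + 4 * m 9 + 1 →
    216 * m 9 ^ 3 + 108 * m 9 ^ 2 + ∑ i ∈ range 9, (m i + 1).choose 2 ≤ (d + 2).choose 2 →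
    Concl s m d

/-- T6. Final.

Proof. `3 d ≤ ∑_{i<9} m i`: `main_zero` (Helper18/SlabFinal.lean), as in `main_win` (Tw/Pen.lean). Let
`∑_{i<9} m i < 3 d`. `m 9 ≤ 1`: as in `main_win` (`red_tr`, `cubic_finish`, `goodFor_simple`; `main_win` itself
applies to `m 9 = 1`, as the window is `0`). Let `M = m 9 ≥ 2`. In the second case (room): if
`(m 0 - (2 M + 1)) + 3 (2 M + 1) ≤ d` use T4; otherwise, if `m 0 ≥ 2 M + 1` then `d ≤ m 0 + 4 M + 1`, T5; if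
`m 0 ≤ 2 M` then `d ≤ 6 M + 2` and `C(d + 2, 2) ≤ (6 M + 3) (6 M + 4) / 2 < 216 M³ + 108 M²`. In the third case: if the
room is smaller than `216 M³ + 108 M²` then
`∑_{i<s} C(m i + 1, 2) - C(d + 2, 2) ≥ 15 M²`: `Pool.Agent.Helper43.Gm.main_reduced` (second alternative). -/
def GoalT6 : Prop :=
  ∀ (s : ℕ) (m : ℕ → ℕ) (d : ℕ), Antitone m → (∀ i, s ≤ i → m i = 0) → m 0 + m 1 + m 2 ≤ d →
    (3 * d ≤ ∑ i ∈ range 9, m i ∨
      216 * m 9 ^ 3 + 108 * m 9 ^ 2 + ∑ i ∈ range 9, (m i + 1).choose 2 ≤ (d + 2).choose 2 ∨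
      216 * m 9 ^ 3 + 123 * m 9 ^ 2 ≤ ∑ i ∈ Ico 9 s, (m i + 1).choose 2) →
    Concl s m d

end Pool.Agent.Helper18.SG
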