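import Mathlib
import Pool.Agent.Helper18.SG.Goals

/-! Project SG: assembly of the game. -/

set_option autoImplicit false

namespace Pool.Agent.Helper18.SG

open Finset Pool.Agent.Lead.Sh Pool.Agent.Helper43.Ah Pool.Agent.Helper43.Gm

lemma inv_all (h8 : GoalG8) (h10 : GoalG10) (h11 : GoalG11) {M S R N : ℕ} {ν ℓ : ℕ → ℕ}
    (h : Hyp M S R N ν ℓ) (y : ℕ) (hy : y + 1 < R) :
    ∃ (a : ℕ) (s z : ℕ → ℕ), Inv M S R N ν ℓ y a s z := by
  induction y with
  | zero => exact h11 M S R N ν ℓ h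
  | succ y ih =>
    obtain ⟨a, s, z, hi⟩ := ih (by omega)
    exact h10 M S R N ν ℓ y a s z h hi (by omega) (h8 M S R N ν ℓ y a s z h hi (by omega))

theorem goalG (h1 : GoalG1) (h8 : GoalG8) (h10 : GoalG10) (h11 : GoalG11) : GoalG := by
  intro M S R N ν ℓ h
  have hR := h.R1
  have hM := h.M1
  obtain ⟨a, s, z, hi⟩ := inv_all h8 h10 h11 h (R - 2) (by omega)
  have hst : ∀ c, s c < R ∧ s c < z c ∧ z c ≤ R ∧ (s c = 0 → z c = R) := by
    intro c
    rcases lt_or_ge c a with hc | hc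
    · obtain ⟨a1, a2, a3, a4⟩ := hi.st c hc
      exact ⟨by omega, a2, a3, a4⟩
    · obtain ⟨a1, a2⟩ := hi.un c hc
      rw [a1, a2]
      exact ⟨by omega, by omega, le_rfl, fun _ => rfl⟩
  refine ⟨s, z, fun c _ => ⟨(hst c).1, (hst c).2.1, (hst c).2.2.1⟩, ?_⟩
  -- total
  have htot : ∑ t ∈ range R, Lo R N ν s z t = ∑ t ∈ range R, ℓ t := by
    rw [← h.tot]
    unfold Lo
    rw [sum_comm]
    refine sum_congr rfl (fun c _ => ?_)
    exact h1 R (ν c) (s c) (z c) (by have := h.νM c; omega) (hst c).1 (hst c).2.1 (hst c).2.2.1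
      (hst c).2.2.2
  have hlast : Lo R N ν s z (R - 2) = ℓ (R - 2) := by
    have h2 := hi.D2
    have h3 := hi.le
    have h4 : min (ν a) (R - 1 - (R - 2)) ≤ 1 := by
      rw [show R - 1 - (R - 2) = 1 by omega]; exact min_le_right _ _
    have h5 : min (ν (a + 1)) (R - 1 - (R - 2)) ≤ 1 := by
      rw [show R - 1 - (R - 2) = 1 by omega]; exact min_le_right _ _
    omega
  have hlt : ∀ t < R - 1, Lo R N ν s z t = ℓ t := by
    intro t ht
    rcases Nat.lt_or_ge t (R - 2) with h2 | h2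
    · exact hi.ex t h2
    · rw [show t = R - 2 by omega]; exact hlast
  intro y hy
  rcases Nat.lt_or_ge y (R - 1) with h2 | h2
  · exact hlt y h2
  · rw [show y = R - 1 by omega]
    have e : R = (R - 1) + 1 := by omega
    rw [e, sum_range_succ, sum_range_succ, ← e] at htot
    have h3 : ∑ t ∈ range (R - 1), Lo R N ν s z t = ∑ t ∈ range (R - 1), ℓ t :=
      sum_congr rfl (fun t ht => hlt t (mem_range.1 ht))
    omega

end Pool.Agent.Helper18.SG
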