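import Mathlib
import Pool.Agent.Helper18.SG.G
import Pool.Agent.Helper39.SG.S
import Pool.Agent.Helper89.SG.S1
import Pool.Agent.Helper75.SG.S2
import Pool.Agent.Helper31.SG.S3
import Pool.Agent.Helper83.SG.V
import Pool.Agent.Helper86.SG.A2
import Pool.Agent.Helper40.SG.P
import Pool.Agent.Helper90.SG.G1
import Pool.Agent.Helper16.SG.G2
import Pool.Agent.Helper51.SG.G4
import Pool.Agent.Helper38.SG.G5
import Pool.Agent.Helper2.SG.G6
import Pool.Agent.Helper46.SG.G7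
import Pool.Agent.Helper81.SG.G8
import Pool.Agent.Helper37.SG.G9
import Pool.Agent.Helper67.SG.G10
import Pool.Agent.Helper5.SG.G11
import Pool.Agent.Helper59.SG.F0
import Pool.Agent.Helper34.SG.F1
import Pool.Agent.Helper58.SG.F
import Pool.Agent.Helper50.SG.Z

/-! Project SG: assembly. -/

set_option autoImplicit false

namespace Pool.Agent.Helper18.SG

open Finset Pool.Agent.Lead.Sh

theorem gG1 : GoalG1 := Pool.Agent.Helper90.SG.goalG1
theorem gG2 : GoalG2 := Pool.Agent.Helper16.SG.goalG2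
theorem gG8 : GoalG8 := Pool.Agent.Helper81.SG.goalG8 gG1 Pool.Agent.Helper51.SG.goalG4
  Pool.Agent.Helper38.SG.goalG5 Pool.Agent.Helper2.SG.goalG6 Pool.Agent.Helper46.SG.goalG7
theorem gG10 : GoalG10 := Pool.Agent.Helper67.SG.G10.goalG10 gG1 gG2 Pool.Agent.Helper51.SG.goalG4
  Pool.Agent.Helper37.SG.goalG9
theorem gG11 : GoalG11 := Pool.Agent.Helper5.SG.goalG11 gG1 gG2
theorem gG : GoalG := goalG gG1 gG8 gG10 gG11
theorem gS : GoalS := Pool.Agent.Helper39.SG.goalS Pool.Agent.Helper89.SG.goalS1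
  Pool.Agent.Helper75.SG.goalS2 Pool.Agent.Helper31.SG.goalS3
theorem gA2 : GoalA2 := Pool.Agent.Helper86.SG.goalA2 Pool.Agent.Helper83.SG.goalV
theorem gP : GoalP := Pool.Agent.Helper40.SG.goalP
theorem gF0 : GoalF0 := Pool.Agent.Helper59.SG.goalF0
theorem gF : GoalF := Pool.Agent.Helper58.SG.goalF gS gA2 gP gG gF0 Pool.Agent.Helper34.SG.goalF1
theorem gZ : GoalZ := Pool.Agent.Helper50.SG.goalZ gF

/-- all systems with `200 m_0 ^ 3 ≤ d ^ 2` or `300 m_0 ^ 3 ≤ ∑ m_i (m_i + 1)` -/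
theorem main_sesqui :
    ∀ (s : ℕ) (m : ℕ → ℕ) (d : ℕ), Antitone m → (∀ i, s ≤ i → m i = 0) →
      (200 * m 0 ^ 3 ≤ d ^ 2 ∨ 300 * m 0 ^ 3 ≤ ∑ i ∈ range s, m i * (m i + 1)) →
      ∃ G : MvPolynomial (Fin s × Fin 3) ℂ, G ≠ 0 ∧
        ∀ P : Fin s → Fin 3 → ℂ, (∀ i, P i ≠ 0) →
          MvPolynomial.eval (fun ij : Fin s × Fin 3 => P ij.1 ij.2) G ≠ 0 →
          (Module.finrank ℂ
            (↥(MvPolynomial.homogeneousSubmodule (Fin 3) ℂ d ⊓
              ⨅ i : Fin s, Submodule.restrictScalars ℂ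
                ((Ideal.span {g : MvPolynomial (Fin 3) ℂ |
                    g.IsHomogeneous 1 ∧ MvPolynomial.eval (P i) g = 0}) ^ (m (i : ℕ))
                  : Ideal (MvPolynomial (Fin 3) ℂ)))) : ℤ)
            = max ((Nat.choose (d + 2) 2 : ℤ) -
                ∑ i : Fin s, (Nat.choose (m (i : ℕ) + 1) 2 : ℤ)) 0 :=
  fun s m d hm hs h => Pool.Agent.Lead.Rw.concl s m d (gZ s m d hm hs h)

end Pool.Agent.Helper18.SG
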