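import Mathlib
import Pool.Agent.Helper18.SG.Main
import Pool.Agent.Helper18.SG.Goals2
import Pool.Agent.Helper18.SGW.Main
import Pool.Agent.Helper61.SG.QK
import Pool.Agent.Helper18.SGI.GI
import Pool.Agent.Helper9.SG.T1a
import Pool.Agent.Helper79.SG.T1
import Pool.Agent.Helper2.SG.T2
import Pool.Agent.Helper13.SG.T3
import Pool.Agent.Helper50.SG.T4
import Pool.Agent.Helper15.SG.T5
import Pool.Agent.Helper8.SG.T6

/-! Project SG, second part: assembly. -/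

set_option autoImplicit false

namespace Pool.Agent.Helper18.SG

theorem gQK : GoalQK := Pool.Agent.Helper61.SG.goalQK gA2 gP Pool.Agent.Helper18.SGW.goalGW gF0
theorem gGI : GoalGI := Pool.Agent.Helper18.SGI.goalGI
theorem gT1 : GoalT1 := Pool.Agent.Helper79.SG.goalT1 Pool.Agent.Helper9.SG.goalT1a
theorem gT4 : GoalT4 := Pool.Agent.Helper50.SG.goalT4 gT1 Pool.Agent.Helper2.SG.goalT2
  Pool.Agent.Helper13.SG.goalT3 gQK gGI
theorem gT5 : GoalT5 := Pool.Agent.Helper15.SG.goalT5 gQK gGI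
theorem gT6 : GoalT6 := Pool.Agent.Helper8.SG.goalT6 gT4 gT5

open Finset in
/-- **Main theorem of the project.** -/
theorem main_room (s : ℕ) (m : ℕ → ℕ) (d : ℕ) (hm : Antitone m) (hs : ∀ i, s ≤ i → m i = 0)
    (hd : m 0 + m 1 + m 2 ≤ d)
    (h : m 9 ≤ 1 ∨ 3 * d ≤ ∑ i ∈ range 9, m i ∨
      216 * m 9 ^ 3 + 108 * m 9 ^ 2 + ∑ i ∈ range 9, (m i + 1).choose 2 ≤ (d + 2).choose 2 ∨
      216 * m 9 ^ 3 + 123 * m 9 ^ 2 ≤ ∑ i ∈ Ico 9 s, (m i + 1).choose 2) :
    Helper18.Cusp.Concl s m d := by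
  rcases Nat.lt_or_ge (∑ i ∈ Finset.range 9, m i) (3 * d) with hlt | hge
  · rcases Nat.lt_or_ge (m 9) 2 with h9 | h9
    · obtain ⟨hsum, hR⟩ := Helper18.Cusp.red_tr hm hd (j := 9) (by norm_num) le_rfl hlt
      exact Helper18.Cusp.cubic_finish s m d 9 hm hs le_rfl hR
        (Helper18.Tw.goodFor_simple hm hs (by omega) _)
    · exact gT6 s m d hm hs hd (h.resolve_left (by omega))
  · exact gT6 s m d hm hs hd (Or.inl hge)

end Pool.Agent.Helper18.SG
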